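import Pool.Agent.J4.H72.LEC.Inv

/-!
# Regular graphs of large girth

For all `D` and `m` there is a finite bipartite system of `D` involutions without nonempty closed
reduced words of length at most `m`: the permutations of the ball of radius `m` in the `D`-regular
tree.
-/

set_option autoImplicit false

namespace Pool.Agent.J4.H72.LEC

/-- Reduced words of length at most `m`: the ball of radius `m` in the regular tree. -/
def Ball (D m : ℕ) : Type := {w : List (Fin D) // w.length ≤ m ∧ Red w}

noncomputable instance (D m : ℕ) : Fintype (Ball D m) :=
  ((List.finite_length_le (Fin D) m).subset (fun _ h => h.1)).fintype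

noncomputable instance (D m : ℕ) : DecidableEq (Ball D m) := Classical.decEq _

/-- Reflection of the tree ball along the edges of colour `i`, on lists. -/
def refl (D m : ℕ) (i : Fin D) : List (Fin D) → List (Fin D)
  | [] => if 0 < m then [i] else []
  | j :: w => if j = i then w else if w.length + 1 < m then i :: j :: w else j :: w

lemma refl_nil (D m : ℕ) (i : Fin D) : refl D m i [] = if 0 < m then [i] else [] := rfl

lemma refl_cons (D m : ℕ) (i j : Fin D) (w : List (Fin D)) : refl D m i (j :: w) =
    if j = i then w else if w.length + 1 < m then i :: j :: w else j :: w := rfl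

lemma refl_mem {D m : ℕ} (i : Fin D) (w : List (Fin D)) (h : w.length ≤ m ∧ Red w) :
    (refl D m i w).length ≤ m ∧ Red (refl D m i w) := by
  cases w with
  | nil =>
    rw [refl_nil]
    by_cases h0 : 0 < m
    · rw [if_pos h0]
      refine ⟨?_, by simp [Red]⟩
      simp
      omega
    · rw [if_neg h0]
      exact h
  | cons j w =>
    rw [refl_cons]
    by_cases h0 : j = i
    · rw [if_pos h0]
      refine ⟨?_, ?_⟩
      · have := h.1
        simp at this
        omega
      · have := h.2
        unfold Red at this ⊢
        exact this.tail
    · rw [if_neg h0]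
      by_cases h1 : w.length + 1 < m
      · rw [if_pos h1]
        refine ⟨by simp; omega, ?_⟩
        unfold Red
        rw [List.isChain_cons_cons]
        exact ⟨fun h => h0 h.symm, h.2⟩
      · rw [if_neg h1]
        exact h

lemma refl_refl {D m : ℕ} (i : Fin D) (w : List (Fin D)) (h : w.length ≤ m ∧ Red w) :
    refl D m i (refl D m i w) = w := by
  cases w with
  | nil =>
    by_cases h0 : 0 < m
    · rw [refl_nil, if_pos h0, refl_cons, if_pos rfl]
    · rw [refl_nil, if_neg h0, refl_nil, if_neg h0]
  | cons j w =>
    by_cases hj : j = i
    · subst hj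
      rw [refl_cons, if_pos rfl]
      have hl := h.1
      simp at hl
      cases w with
      | nil =>
        rw [refl_nil, if_pos (by simpa using hl)]
      | cons k w =>
        have hne : k ≠ j := by
          have h2 := h.2
          unfold Red at h2
          rw [List.isChain_cons_cons] at h2
          exact fun h3 => h2.1 h3.symm
        simp at hl
        rw [refl_cons, if_neg hne, if_pos hl]
    · by_cases h1 : w.length + 1 < m
      · rw [refl_cons, if_neg hj, if_pos h1, refl_cons, if_pos rfl]
      · rw [refl_cons, if_neg hj, if_neg h1, refl_cons, if_neg hj, if_neg h1]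

/-- Reflections of the ball. -/
def bs (D m : ℕ) (i : Fin D) : Equiv.Perm (Ball D m) where
  toFun w := ⟨refl D m i w.1, refl_mem i w.1 w.2⟩
  invFun w := ⟨refl D m i w.1, refl_mem i w.1 w.2⟩
  left_inv w := Subtype.ext (refl_refl i w.1 w.2)
  right_inv w := Subtype.ext (refl_refl i w.1 w.2)

lemma bs_mul (D m : ℕ) (i : Fin D) : bs D m i * bs D m i = 1 := by
  apply Equiv.ext
  intro w
  exact Subtype.ext (refl_refl i w.1 w.2)

/-- The centre of the ball. -/
def root (D m : ℕ) : Ball D m := ⟨[], by simp, by simp [Red]⟩

/-- The product of the reflections of a word. -/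
def prodW (D m : ℕ) (w : List (Fin D)) : Equiv.Perm (Ball D m) :=
  (w.reverse.map (bs D m)).prod

lemma prodW_snoc (D m : ℕ) (u : List (Fin D)) (i : Fin D) :
    prodW D m (u ++ [i]) = bs D m i * prodW D m u := by
  simp [prodW]

lemma prodW_root (D m : ℕ) (w : List (Fin D)) (hw : Red w) (hl : w.length ≤ m) :
    (prodW D m w (root D m)).1 = w.reverse := by
  induction w using List.reverseRecOn with
  | nil => rfl
  | append_singleton u i ih =>
    have hu : Red u := by
      unfold Red at hw ⊢
      exact hw.left_of_append
    simp at hl
    have h1 := ih hu (by omega)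
    rw [prodW_snoc, Equiv.Perm.mul_apply]
    show refl D m i (prodW D m u (root D m)).1 = _
    rw [h1]
    rcases List.eq_nil_or_concat u with rfl | ⟨v, j, rfl⟩
    · rw [List.reverse_nil, refl_nil, if_pos (by omega)]
      rfl
    · simp only [List.concat_eq_append] at hw hl ⊢
      have hne : j ≠ i := by
        unfold Red at hw
        rw [List.append_assoc] at hw
        have := hw.right_of_append
        simpa using this
      simp at hl
      rw [List.reverse_append, List.reverse_singleton, List.singleton_append, refl_cons,
        if_neg hne, if_pos (by simp; omega)]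
      simp

/-- The system of large girth. -/
def big (D m : ℕ) (hm : 0 < m) : Sys D (Equiv.Perm (Ball D m) × Bool) where
  ν i h := (bs D m i * h.1, !h.2)
  inv i h := by
    ext1
    · show bs D m i * (bs D m i * h.1) = h.1
      rw [← mul_assoc, bs_mul, one_mul]
    · simp
  ne_self i h := by
    intro he
    have := congrArg Prod.snd he
    simp at this
  ne i j h hij := by
    intro he
    have h1 := congrArg Prod.fst he
    simp only [mul_left_inj] at h1
    have h2 := congrArg (fun f : Equiv.Perm (Ball D m) => (f (root D m)).1) h1
    change refl D m i [] = refl D m j [] at h2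
    rw [refl_nil, refl_nil, if_pos hm, if_pos hm] at h2
    simp at h2
    exact hij h2

lemma big_act (D m : ℕ) (hm : 0 < m) (w : List (Fin D)) (h : Equiv.Perm (Ball D m) × Bool) :
    (act (big D m hm).ν w h).1 = prodW D m w * h.1 := by
  induction w using List.reverseRecOn with
  | nil => simp [prodW]
  | append_singleton u i ih =>
    rw [act_snoc, prodW_snoc, mul_assoc, ← ih]
    rfl

lemma big_NC (D m : ℕ) (hm : 0 < m) : NC (big D m hm).ν m := by
  intro w hw hne hl h he
  have h1 := big_act D m hm w h
  rw [he] at h1
  have h2 : prodW D m w = 1 := by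
    have := h1.symm
    rwa [mul_eq_right] at this
  have h3 := prodW_root D m w hw hl
  rw [h2] at h3
  change [] = w.reverse at h3
  have h4 := congrArg List.reverse h3
  simp at h4
  exact hne h4

/-- A bipartite system of involutions of large girth. -/
theorem exists_big (D m : ℕ) (hm : 0 < m) :
    ∃ (H : Type) (_ : Fintype H) (_ : Nonempty H) (T : Sys D H) (χ : H → Bool),
      NC T.ν m ∧ ∀ i h, χ (T.ν i h) = !χ h := by
  classical
  exact ⟨Equiv.Perm (Ball D m) × Bool, inferInstance, ⟨(1, true)⟩, big D m hm, Prod.snd,
    big_NC D m hm, fun i h => rfl⟩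

end Pool.Agent.J4.H72.LEC
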