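import Mathlib

/-!
# Edge-coloured regular graphs as systems of involutions

A `D`-regular graph with a proper edge colouring with `D` colours is the same as a system of `D`
involutions without fixed points, two of which never agree at a point. `act ν w a` is the end of
the walk with the colours `w` from `a`.
-/

set_option autoImplicit false

namespace Pool.Agent.J4.H72.LEC

/-- A system of `D` involutions `ν i` of `V` without fixed points, pairwise different at each
point: a `D`-regular graph with a proper edge colouring with `D` colours. -/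
structure Sys (D : ℕ) (V : Type) where
  /-- the neighbour in colour `i` -/
  ν : Fin D → V → V
  inv : ∀ i a, ν i (ν i a) = a
  ne_self : ∀ i a, ν i a ≠ a
  ne : ∀ i j a, i ≠ j → ν i a ≠ ν j a

variable {D : ℕ} {V : Type}

/-- The end of the walk with the colours `w` from `a`. -/
def act (ν : Fin D → V → V) (w : List (Fin D)) (a : V) : V := w.foldl (fun b i => ν i b) a

@[simp] lemma act_nil (ν : Fin D → V → V) (a : V) : act ν [] a = a := rfl

@[simp] lemma act_cons (ν : Fin D → V → V) (i : Fin D) (w : List (Fin D)) (a : V) :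
    act ν (i :: w) a = act ν w (ν i a) := rfl

lemma act_append (ν : Fin D → V → V) (u w : List (Fin D)) (a : V) :
    act ν (u ++ w) a = act ν w (act ν u a) := by
  simp [act, List.foldl_append]

@[simp] lemma act_snoc (ν : Fin D → V → V) (u : List (Fin D)) (i : Fin D) (a : V) :
    act ν (u ++ [i]) a = ν i (act ν u a) := by
  simp [act_append]

/-- A word is reduced if consecutive letters are different. -/
def Red (w : List (Fin D)) : Prop := w.IsChain (· ≠ ·)

/-- No nonempty reduced word of length at most `m` fixes a point. -/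
def NC (ν : Fin D → V → V) (m : ℕ) : Prop :=
  ∀ w : List (Fin D), Red w → w ≠ [] → w.length ≤ m → ∀ a, act ν w a ≠ a

namespace Sys

/-- The graph of a system of involutions. -/
def graph (S : Sys D V) : SimpleGraph V where
  Adj a b := ∃ i, S.ν i a = b
  symm := ⟨by
    rintro a b ⟨i, rfl⟩
    exact ⟨i, S.inv i a⟩⟩
  loopless := ⟨by
    rintro a ⟨i, h⟩
    exact S.ne_self i a h⟩

variable (S : Sys D V)

lemma adj_iff {a b : V} : S.graph.Adj a b ↔ ∃ i, S.ν i a = b := Iff.rfl

lemma adj_ν (i : Fin D) (a : V) : S.graph.Adj a (S.ν i a) := ⟨i, rfl⟩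

lemma inj {i j : Fin D} {a : V} (h : S.ν i a = S.ν j a) : i = j := by
  by_contra hij
  exact S.ne i j a hij h

/-- The colour of an edge. -/
noncomputable def col {a b : V} (h : S.graph.Adj a b) : Fin D := Classical.choose h

lemma col_spec {a b : V} (h : S.graph.Adj a b) : S.ν (S.col h) a = b := Classical.choose_spec h

/-- The colours along a walk. -/
noncomputable def word : ∀ {a b : V}, S.graph.Walk a b → List (Fin D)
  | _, _, .nil => []
  | _, _, .cons h p => S.col h :: word p

@[simp] lemma word_nil (a : V) : S.word (SimpleGraph.Walk.nil : S.graph.Walk a a) = [] := rfl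

@[simp] lemma word_cons {a b c : V} (h : S.graph.Adj a b) (p : S.graph.Walk b c) :
    S.word (.cons h p) = S.col h :: S.word p := rfl

lemma word_length : ∀ {a b : V} (p : S.graph.Walk a b), (S.word p).length = p.length
  | _, _, .nil => rfl
  | _, _, .cons h p => by simp [word_length p]

lemma word_act : ∀ {a b : V} (p : S.graph.Walk a b), act S.ν (S.word p) a = b
  | _, _, .nil => rfl
  | _, _, .cons h p => by simp [word_act p, S.col_spec h]

lemma word_red : ∀ {a b : V} (p : S.graph.Walk a b), p.IsTrail → Red (S.word p)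
  | _, _, .nil, _ => by simp [Red]
  | _, _, .cons h .nil, _ => by simp [Red]
  | a, _, .cons (v := b) h (.cons (v := c) h' p), ht => by
    have ht' := SimpleGraph.Walk.IsTrail.of_cons ht
    have ih := word_red _ ht'
    have hne : s(a, b) ≠ s(b, c) := by
      intro he
      rw [SimpleGraph.Walk.isTrail_cons] at ht
      apply ht.2
      rw [he]
      simp
    simp only [word_cons] at ih ⊢
    unfold Red at ih ⊢
    rw [List.isChain_cons_cons]
    refine ⟨?_, ih⟩
    intro hc
    apply hne
    have h1 := S.col_spec h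
    have h2 := S.col_spec h'
    have h3 : S.ν (S.col h) (S.ν (S.col h) a) = a := S.inv _ _
    rw [h1, hc, h2] at h3
    rw [h3, Sym2.eq_swap]

/-- The girth of the graph of a system without short closed reduced words. -/
lemma girth {m : ℕ} (h : NC S.ν m) : (m : ℕ∞) < S.graph.egirth := by
  have : ((m + 1 : ℕ) : ℕ∞) ≤ S.graph.egirth := by
    rw [SimpleGraph.le_egirth]
    intro a w hw
    rw [Nat.cast_le]
    by_contra hlt
    push Not at hlt
    have hl := S.word_length w
    refine h (S.word w) (S.word_red w hw.isTrail) ?_ (by omega) a (S.word_act w)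
    intro h0
    rw [h0] at hl
    have := hw.three_le_length
    simp at hl
    omega
  refine lt_of_lt_of_le ?_ this
  exact_mod_cast Nat.lt_succ_self m

/-- Distances from words. -/
lemma far {m : ℕ} {a b : V}
    (h : ∀ w : List (Fin D), Red w → w.length ≤ m → act S.ν w a ≠ b) (p : S.graph.Walk a b) :
    m < p.length := by
  classical
  by_contra hlt
  push Not at hlt
  have h1 := p.length_bypass_le_length
  have h2 := S.word_length p.bypass
  exact h (S.word p.bypass) (S.word_red _ p.bypass_isPath.isTrail) (by omega)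
    (S.word_act p.bypass)

lemma neighborSet_eq (a : V) : S.graph.neighborSet a = Set.range (fun i => S.ν i a) := by
  ext b
  simp [SimpleGraph.mem_neighborSet, adj_iff]

lemma degree (a : V) : (S.graph.neighborSet a).ncard = D := by
  rw [S.neighborSet_eq, ← Set.image_univ, Set.ncard_image_of_injective]
  · simp
  · intro i j h
    exact S.inj h

/-- The edge of colour `i` at `a`. -/
def edge (a : V) (i : Fin D) : S.graph.edgeSet := ⟨s(a, S.ν i a), S.adj_ν i a⟩

@[simp] lemma edge_val (a : V) (i : Fin D) : (S.edge a i : Sym2 V) = s(a, S.ν i a) := rfl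

lemma edge_ν (a : V) (i : Fin D) : S.edge (S.ν i a) i = S.edge a i := by
  apply Subtype.ext
  simp [S.inv, Sym2.eq_swap]

lemma exists_edge (e : S.graph.edgeSet) : ∃ a i, S.edge a i = e := by
  obtain ⟨e, he⟩ := e
  induction e using Sym2.ind with
  | _ a b =>
    obtain ⟨i, hi⟩ := (S.adj_iff).1 he
    change S.ν i a = b at hi
    subst hi
    exact ⟨a, i, rfl⟩

lemma exists_edge_of_mem (e : S.graph.edgeSet) {a : V} (ha : a ∈ (e : Sym2 V)) :
    ∃ i, S.edge a i = e := by
  obtain ⟨b, i, rfl⟩ := S.exists_edge e
  rw [edge_val, Sym2.mem_iff] at ha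
  rcases ha with rfl | rfl
  · exact ⟨i, rfl⟩
  · exact ⟨i, S.edge_ν b i⟩

lemma edge_eq_iff {a b : V} {i j : Fin D} :
    S.edge a i = S.edge b j ↔ i = j ∧ (a = b ∨ a = S.ν i b) := by
  constructor
  · intro h
    have h1 := congrArg Subtype.val h
    simp only [edge_val, Sym2.eq_iff] at h1
    rcases h1 with ⟨rfl, h2⟩ | ⟨h2, h3⟩
    · exact ⟨S.inj h2, Or.inl rfl⟩
    · have : i = j := by
        apply S.inj (a := a)
        rw [h3, h2, S.inv]
      subst this
      exact ⟨rfl, Or.inr h2⟩
  · rintro ⟨rfl, rfl | rfl⟩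
    · rfl
    · exact S.edge_ν b i

lemma edge_inj {a : V} {i j : Fin D} (h : S.edge a i = S.edge a j) : i = j :=
  (S.edge_eq_iff.1 h).1

lemma lineAdj {a : V} {i j : Fin D} (h : i ≠ j) :
    S.graph.lineGraph.Adj (S.edge a i) (S.edge a j) := by
  refine ⟨fun he => h (S.edge_inj he), a, ?_, ?_⟩ <;> simp

lemma lineAdj_iff (e e' : S.graph.edgeSet) :
    S.graph.lineGraph.Adj e e' ↔ ∃ a i j, i ≠ j ∧ S.edge a i = e ∧ S.edge a j = e' := by
  constructor
  · rintro ⟨hne, a, ha, ha'⟩
    obtain ⟨i, rfl⟩ := S.exists_edge_of_mem e ha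
    obtain ⟨j, rfl⟩ := S.exists_edge_of_mem e' ha'
    exact ⟨a, i, j, fun h => hne (by rw [h]), rfl, rfl⟩
  · rintro ⟨a, i, j, h, rfl, rfl⟩
    exact S.lineAdj h

/-- A function of the edges, from a symmetric function of the vertices and colours. -/
lemma lift {β : Type} (f : V → Fin D → β) (hf : ∀ a i, f (S.ν i a) i = f a i) :
    ∃ F : S.graph.edgeSet → β, ∀ a i, F (S.edge a i) = f a i := by
  choose A I h using S.exists_edge
  refine ⟨fun e => f (A e) (I e), fun a i => ?_⟩
  have h1 := h (S.edge a i)
  rw [S.edge_eq_iff] at h1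
  obtain ⟨h2, h3⟩ := h1
  show f (A (S.edge a i)) (I (S.edge a i)) = f a i
  rcases h3 with h3 | h3
  · rw [h3, h2]
  · rw [h3, h2, hf]

/-- The graph of a system of `D` involutions has a proper edge colouring with `D` colours. -/
lemma colorable : S.graph.lineGraph.Colorable D := by
  obtain ⟨F, hF⟩ := S.lift (fun _ i => i) (fun _ _ => rfl)
  refine ⟨SimpleGraph.Coloring.mk F ?_⟩
  intro e e' h
  obtain ⟨a, i, j, hij, rfl, rfl⟩ := (S.lineAdj_iff e e').1 h
  rw [hF, hF]
  exact hij

end Sys

end Pool.Agent.J4.H72.LEC
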