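import Pool.Agent.J4.H72.LEC.Inv

/-!
# Replacing the edges of a graph by wires

Every edge `x y` of colour `i` is replaced by a path of two gadgets; a gadget is a copy of a regular
graph of large girth without the edge of colour `i` at its base point.
-/

set_option autoImplicit false

namespace Pool.Agent.J4.H72.LEC

variable {D : ℕ} {V H : Type}

open Classical in
/-- The neighbours in the graph with wires. -/
noncomputable def wν (S : Sys D V) (T : Sys D H) (o : H) (j : Fin D) :
    V ⊕ V × Fin D × H → V ⊕ V × Fin D × H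
  | Sum.inl x => Sum.inr (x, j, o)
  | Sum.inr (x, i, h) =>
    if j = i ∧ h = o then Sum.inl x
    else if j = i ∧ h = T.ν i o then Sum.inr (S.ν i x, i, h)
    else Sum.inr (x, i, T.ν j h)

section
variable (S : Sys D V) (T : Sys D H) (o : H)

lemma wν_inl (j : Fin D) (x : V) : wν S T o j (Sum.inl x) = Sum.inr (x, j, o) := rfl

lemma wν_o (i : Fin D) (x : V) : wν S T o i (Sum.inr (x, i, o)) = Sum.inl x := by
  simp [wν]

lemma wν_o' (i : Fin D) (x : V) :
    wν S T o i (Sum.inr (x, i, T.ν i o)) = Sum.inr (S.ν i x, i, T.ν i o) := by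
  have h : T.ν i o ≠ o := T.ne_self i o
  simp [wν, h]

lemma wν_gen (i j : Fin D) (x : V) (h : H) (h1 : ¬ (j = i ∧ h = o))
    (h2 : ¬ (j = i ∧ h = T.ν i o)) :
    wν S T o j (Sum.inr (x, i, h)) = Sum.inr (x, i, T.ν j h) := by
  simp only [wν]
  rw [if_neg h1, if_neg h2]

/-- The graph with wires. -/
noncomputable def wire : Sys D (V ⊕ V × Fin D × H) where
  ν j a := wν S T o j a
  inv j a := by
    rcases a with x | ⟨x, i, h⟩
    · rw [wν_inl, wν_o]
    · by_cases h1 : j = i ∧ h = o
      · obtain ⟨rfl, rfl⟩ := h1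
        rw [wν_o, wν_inl]
      · by_cases h2 : j = i ∧ h = T.ν i o
        · obtain ⟨rfl, rfl⟩ := h2
          rw [wν_o', wν_o', S.inv]
        · rw [wν_gen S T o i j x h h1 h2, wν_gen, T.inv]
          · rintro ⟨rfl, h3⟩
            apply h2
            refine ⟨rfl, ?_⟩
            rw [← h3, T.inv]
          · rintro ⟨rfl, h3⟩
            apply h1
            refine ⟨rfl, ?_⟩
            have := congrArg (T.ν j) h3
            rwa [T.inv, T.inv] at this
  ne_self j a := by
    rcases a with x | ⟨x, i, h⟩
    · rw [wν_inl]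
      simp
    · by_cases h1 : j = i ∧ h = o
      · obtain ⟨rfl, rfl⟩ := h1
        rw [wν_o]
        simp
      · by_cases h2 : j = i ∧ h = T.ν i o
        · obtain ⟨rfl, rfl⟩ := h2
          rw [wν_o']
          intro he
          simp at he
          exact S.ne_self _ _ he
        · rw [wν_gen S T o i j x h h1 h2]
          intro he
          simp at he
          exact T.ne_self _ _ he
  ne j k a hjk := by
    rcases a with x | ⟨x, i, h⟩
    · rw [wν_inl, wν_inl]
      intro he
      simp at he
      exact hjk he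
    · intro he
      by_cases h1 : j = i ∧ h = o
      · obtain ⟨rfl, rfl⟩ := h1
        rw [wν_o, wν_gen _ _ _ _ _ _ _ (fun h => hjk h.1.symm) (fun h => hjk h.1.symm)] at he
        simp at he
      · by_cases h2 : j = i ∧ h = T.ν i o
        · obtain ⟨rfl, rfl⟩ := h2
          rw [wν_o', wν_gen _ _ _ _ _ _ _ (fun h => hjk h.1.symm) (fun h => hjk h.1.symm)] at he
          simp at he
          exact S.ne_self _ _ he.1
        · rw [wν_gen S T o i j x h h1 h2] at he
          by_cases h3 : k = i ∧ h = o
          · obtain ⟨rfl, rfl⟩ := h3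
            rw [wν_o] at he
            simp at he
          · by_cases h4 : k = i ∧ h = T.ν i o
            · obtain ⟨rfl, rfl⟩ := h4
              rw [wν_o'] at he
              simp at he
              exact S.ne_self _ _ he.1.symm
            · rw [wν_gen S T o i k x h h3 h4] at he
              simp at he
              exact T.ne _ _ _ hjk he

lemma wire_ν (j : Fin D) (a : V ⊕ V × Fin D × H) : (wire S T o).ν j a = wν S T o j a := rfl

variable {m : ℕ}

/-- The part of a reduced word after the entrance at the base point stays in the gadget. -/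
lemma in1 (hT : NC T.ν m) (i : Fin D) (x : V) (u : List (Fin D)) (hr : Red (i :: u))
    (hl : u.length ≤ m) :
    act (wire S T o).ν u (Sum.inr (x, i, o)) = Sum.inr (x, i, act T.ν u o) := by
  induction u using List.reverseRecOn with
  | nil => rfl
  | append_singleton u k ih =>
    have hr1 : Red (i :: u) := by
      unfold Red at hr ⊢
      rw [← List.cons_append] at hr
      exact hr.left_of_append
    have hr2 : Red (u ++ [k]) := by
      unfold Red at hr ⊢
      exact hr.tail
    have hr3 : Red u := by
      unfold Red at hr1 ⊢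
      exact hr1.tail
    simp at hl
    rw [act_snoc, act_snoc, ih hr1 (by omega), wire_ν, wν_gen]
    · rintro ⟨rfl, h1⟩
      by_cases hu : u = []
      · subst hu
        unfold Red at hr
        simp at hr
      · exact hT u hr3 hu (by omega) o h1
    · rintro ⟨rfl, h1⟩
      apply hT (u ++ [k]) hr2 (by simp) (by simp; omega) o
      rw [act_snoc, h1, T.inv]

/-- The part of a reduced word after the entrance at the other end stays in the gadget. -/
lemma in2 (hT : NC T.ν m) (i : Fin D) (x : V) (u : List (Fin D)) (hr : Red (i :: u))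
    (hl : u.length ≤ m) :
    act (wire S T o).ν u (Sum.inr (x, i, T.ν i o)) =
      Sum.inr (x, i, act T.ν u (T.ν i o)) := by
  induction u using List.reverseRecOn with
  | nil => rfl
  | append_singleton u k ih =>
    have hr1 : Red (i :: u) := by
      unfold Red at hr ⊢
      rw [← List.cons_append] at hr
      exact hr.left_of_append
    have hr2 : Red (u ++ [k]) := by
      unfold Red at hr ⊢
      exact hr.tail
    have hr3 : Red u := by
      unfold Red at hr1 ⊢
      exact hr1.tail
    simp at hl
    rw [act_snoc, act_snoc, ih hr1 (by omega), wire_ν, wν_gen]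
    · rintro ⟨rfl, h1⟩
      apply hT (u ++ [k]) hr2 (by simp) (by simp; omega) (T.ν k o)
      rw [act_snoc, h1]
    · rintro ⟨rfl, h1⟩
      by_cases hu : u = []
      · subst hu
        unfold Red at hr
        simp at hr
      · exact hT u hr3 hu (by omega) _ h1

/-- Reduced walks from an old vertex. -/
lemma pos_inl (hT : NC T.ν m) (x : V) (w : List (Fin D)) (hr : Red w) (hl : w.length ≤ m)
    (hw : w ≠ []) : ∃ q, act (wire S T o).ν w (Sum.inl x) = Sum.inr q := by
  cases w with
  | nil => exact absurd rfl hw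
  | cons i u =>
    simp at hl
    rw [act_cons, wire_ν, wν_inl, in1 S T o hT i x u hr (by omega)]
    exact ⟨_, rfl⟩

/-- Reduced walks from a vertex of a gadget. -/
lemma pos_inr (hT : NC T.ν m) (x : V) (i : Fin D) (w : List (Fin D)) (hr : Red w)
    (hl : w.length ≤ m) (h : H) :
    act (wire S T o).ν w (Sum.inr (x, i, h)) = Sum.inr (x, i, act T.ν w h) ∨
    (∃ y, act (wire S T o).ν w (Sum.inr (x, i, h)) = Sum.inl y) ∨
    (∃ y j h', j ≠ i ∧ act (wire S T o).ν w (Sum.inr (x, i, h)) = Sum.inr (y, j, h')) ∨
    (∃ j h', act (wire S T o).ν w (Sum.inr (x, i, h)) = Sum.inr (S.ν i x, j, h')) := by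
  induction w generalizing h with
  | nil => exact Or.inl rfl
  | cons k w ih =>
    simp at hl
    have hr' : Red w := by
      unfold Red at hr ⊢
      exact hr.tail
    rw [act_cons, wire_ν]
    by_cases h1 : k = i ∧ h = o
    · obtain ⟨rfl, rfl⟩ := h1
      rw [wν_o]
      cases w with
      | nil => exact Or.inr (Or.inl ⟨x, rfl⟩)
      | cons j v =>
        refine Or.inr (Or.inr (Or.inl ⟨x, j, act T.ν v h, ?_, ?_⟩))
        · unfold Red at hr
          rw [List.isChain_cons_cons] at hr
          exact hr.1.symm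
        · simp at hl
          rw [act_cons, wire_ν, wν_inl, in1 S T h hT j x v hr' (by omega)]
    · by_cases h2 : k = i ∧ h = T.ν i o
      · obtain ⟨rfl, rfl⟩ := h2
        rw [wν_o', in2 S T o hT k (S.ν k x) w hr (by omega)]
        exact Or.inr (Or.inr (Or.inr ⟨_, _, rfl⟩))
      · rw [wν_gen S T o i k x h h1 h2, act_cons]
        exact ih hr' (by omega) _

/-- The graph with wires has no short closed reduced walks. -/
lemma wire_NC (hT : NC T.ν m) : NC (wire S T o).ν m := by
  intro w hr hw hl a he
  rcases a with x | ⟨x, i, h⟩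
  · obtain ⟨q, hq⟩ := pos_inl S T o hT x w hr hl hw
    rw [hq] at he
    simp at he
  · rcases pos_inr S T o hT x i w hr hl h with h1 | ⟨y, h1⟩ | ⟨y, j, h', hj, h1⟩ | ⟨j, h', h1⟩
    · rw [h1] at he
      simp at he
      exact hT w hr hw hl h he
    · rw [h1] at he
      simp at he
    · rw [h1] at he
      simp at he
      exact hj he.2.1
    · rw [h1] at he
      simp at he
      exact S.ne_self _ _ he.1

/-- Old vertices are far apart. -/
lemma wire_far (hT : NC T.ν m) (x y : V) (hxy : x ≠ y)
    (p : (wire S T o).graph.Walk (Sum.inl x) (Sum.inl y)) : m < p.length := by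
  apply Sys.far
  intro w hr hl he
  by_cases hw : w = []
  · subst hw
    simp at he
    exact hxy he
  · obtain ⟨q, hq⟩ := pos_inl S T o hT x w hr hl hw
    rw [hq] at he
    simp at he

/-- The gadgets form a bipartite graph. -/
lemma wire_side (χ : H → Bool) (hχ : ∀ i h, χ (T.ν i h) = !χ h) (r : V → ℕ)
    (hr : Function.Injective r) :
    ∃ side : V ⊕ V × Fin D × H → Bool, ∀ p q : V × Fin D × H,
      (wire S T o).graph.Adj (Sum.inr p) (Sum.inr q) → side (Sum.inr p) ≠ side (Sum.inr q) := by
  classical
  refine ⟨fun a => match a with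
    | Sum.inl _ => true
    | Sum.inr (x, i, h) => xor (χ h) (decide (r x < r (S.ν i x))), ?_⟩
  rintro ⟨x, i, h⟩ ⟨y, k, h'⟩ ⟨j, hj⟩
  rw [wire_ν] at hj
  by_cases h1 : j = i ∧ h = o
  · obtain ⟨rfl, rfl⟩ := h1
    rw [wν_o] at hj
    simp at hj
  · by_cases h2 : j = i ∧ h = T.ν i o
    · obtain ⟨rfl, rfl⟩ := h2
      rw [wν_o'] at hj
      simp at hj
      obtain ⟨rfl, rfl, rfl⟩ := hj
      have hne : r x ≠ r (S.ν j x) := fun he => S.ne_self j x (hr he).symm
      simp only [S.inv]
      rcases lt_or_gt_of_ne hne with h3 | h3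
      · have h4 : ¬ r (S.ν j x) < r x := by omega
        simp [h3, h4]
      · have h4 : ¬ r x < r (S.ν j x) := by omega
        simp [h3, h4]
    · rw [wν_gen S T o i j x h h1 h2] at hj
      simp at hj
      obtain ⟨rfl, rfl, rfl⟩ := hj
      simp only [hχ]
      cases χ h <;> simp

/-- A finite type with an involution without fixed points has even cardinality; the number of fixed
points of an involution is even then. -/
lemma even_fixed [Fintype H] (s t : H → H) (hs : ∀ h, s (s h) = h) (hs' : ∀ h, s h ≠ h)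
    (ht : ∀ h, t (t h) = h) (a : H) (ha : t a = a) : ∃ b, b ≠ a ∧ t b = b := by
  classical
  by_contra hcon
  push Not at hcon
  have : Fact (Nat.Prime 2) := ⟨Nat.prime_two⟩
  have h1 := Equiv.Perm.card_fixedPoints_modEq (p := 2) (n := 1) (f := (s : Function.End H))
    (by funext h; exact hs h)
  have h2 := Equiv.Perm.card_fixedPoints_modEq (p := 2) (n := 1) (f := (t : Function.End H))
    (by funext h; exact ht h)
  have e1 : Fintype.card (Function.fixedPoints s) = 0 := by
    rw [Fintype.card_eq_zero_iff]
    exact ⟨fun x => hs' x.1 x.2⟩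
  have e2 : Fintype.card (Function.fixedPoints t) = 1 := by
    rw [Fintype.card_eq_one_iff]
    refine ⟨⟨a, ha⟩, fun y => Subtype.ext ?_⟩
    by_contra hne
    exact hcon y.1 hne y.2
  have e3 := h1.symm.trans h2
  change Fintype.card (Function.fixedPoints s) ≡ Fintype.card (Function.fixedPoints t) [MOD 2] at e3
  rw [e1, e2] at e3
  exact absurd e3 (by decide)

/-- The lists of the graph with wires. -/
def wL (L : V → Fin D → Finset ℕ) : V ⊕ V × Fin D × H → Fin D → Finset ℕ
  | Sum.inl x, j => L x j
  | Sum.inr (x, i, _), _ => L x i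

/-- The parity lemma: the two ends of a gadget have the same colour. -/
lemma gadget [Fintype H] (L : V → Fin D → Finset ℕ) (hL : ∀ x i, (L x i).card = D)
    (f : V ⊕ V × Fin D × H → Fin D → ℕ) (hsym : ∀ a j, f ((wire S T o).ν j a) j = f a j)
    (hinj : ∀ a, Function.Injective (f a)) (hmem : ∀ a j, f a j ∈ wL L a j) (x : V) (i : Fin D) :
    f (Sum.inr (x, i, T.ν i o)) i = f (Sum.inr (x, i, o)) i := by
  classical
  set α := f (Sum.inr (x, i, o)) i with hα
  have hex : ∀ h : H, ∃ j, f (Sum.inr (x, i, h)) j = α := by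
    intro h
    have h1 : Finset.univ.image (f (Sum.inr (x, i, h))) = L x i := by
      apply Finset.eq_of_subset_of_card_le
      · intro c hc
        rw [Finset.mem_image] at hc
        obtain ⟨j, -, rfl⟩ := hc
        exact hmem (Sum.inr (x, i, h)) j
      · rw [Finset.card_image_of_injective _ (hinj _), hL]
        simp
    have h2 : α ∈ L x i := hmem (Sum.inr (x, i, o)) i
    rw [← h1, Finset.mem_image] at h2
    obtain ⟨j, -, hj⟩ := h2
    exact ⟨j, hj⟩
  choose J hJ using hex
  have hJu : ∀ h j, f (Sum.inr (x, i, h)) j = α → J h = j := fun h j hj =>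
    hinj _ ((hJ h).trans hj.symm)
  have hJo : J o = i := hJu o i rfl
  by_contra hne
  have hJo' : J (T.ν i o) ≠ i := by
    intro h
    apply hne
    have := hJ (T.ν i o)
    rwa [h] at this
  let t : H → H := fun h => if J h = i ∧ (h = o ∨ h = T.ν i o) then h else T.ν (J h) h
  have ht1 : ∀ h, J h = i ∧ (h = o ∨ h = T.ν i o) → t h = h := fun h hh => if_pos hh
  have ht2 : ∀ h, ¬ (J h = i ∧ (h = o ∨ h = T.ν i o)) → t h = T.ν (J h) h :=
    fun h hh => if_neg hh
  have htt : ∀ h, t (t h) = h := by
    intro h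
    by_cases hh : J h = i ∧ (h = o ∨ h = T.ν i o)
    · rw [ht1 h hh, ht1 h hh]
    · rw [ht2 h hh]
      have h3 : wν S T o (J h) (Sum.inr (x, i, h)) = Sum.inr (x, i, T.ν (J h) h) := by
        apply wν_gen
        · exact fun h4 => hh ⟨h4.1, Or.inl h4.2⟩
        · exact fun h4 => hh ⟨h4.1, Or.inr h4.2⟩
      have h5 := hsym (Sum.inr (x, i, h)) (J h)
      rw [wire_ν, h3, hJ h] at h5
      have h6 : J (T.ν (J h) h) = J h := hJu _ _ h5
      have h7 : ¬ (J (T.ν (J h) h) = i ∧ (T.ν (J h) h = o ∨ T.ν (J h) h = T.ν i o)) := by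
        rw [h6]
        rintro ⟨h8, h9⟩
        apply hh
        refine ⟨h8, ?_⟩
        rw [h8] at h9
        rcases h9 with h9 | h9
        · right
          rw [← h9, T.inv]
        · left
          have := congrArg (T.ν i) h9
          rwa [T.inv, T.inv] at this
      rw [ht2 _ h7, h6, T.inv]
  obtain ⟨b, hb1, hb2⟩ := even_fixed (T.ν i) t (T.inv i) (T.ne_self i) htt o
    (ht1 o ⟨hJo, Or.inl rfl⟩)
  by_cases hh : J b = i ∧ (b = o ∨ b = T.ν i o)
  · rcases hh.2 with h | h
    · exact hb1 h
    · exact hJo' (h ▸ hh.1)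
  · rw [ht2 b hh] at hb2
    exact T.ne_self _ _ hb2

/-- The two ends of a wire have the same colour. -/
lemma wire_eq [Fintype H] (L : V → Fin D → Finset ℕ) (hL : ∀ x i, (L x i).card = D)
    (f : V ⊕ V × Fin D × H → Fin D → ℕ) (hsym : ∀ a j, f ((wire S T o).ν j a) j = f a j)
    (hinj : ∀ a, Function.Injective (f a)) (hmem : ∀ a j, f a j ∈ wL L a j) (x : V) (i : Fin D) :
    f (Sum.inl (S.ν i x)) i = f (Sum.inl x) i := by
  have h1 := gadget S T o L hL f hsym hinj hmem x i
  have h2 := gadget S T o L hL f hsym hinj hmem (S.ν i x) i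
  have h3 := hsym (Sum.inl x) i
  have h4 := hsym (Sum.inl (S.ν i x)) i
  have h5 := hsym (Sum.inr (x, i, T.ν i o)) i
  rw [wire_ν, wν_inl] at h3 h4
  rw [wire_ν, wν_o'] at h5
  rw [← h4, ← h3, ← h1, ← h5, h2]

/-- The lists are symmetric. -/
lemma wL_sym (L : V → Fin D → Finset ℕ) (hLs : ∀ x i, L (S.ν i x) i = L x i)
    (a : V ⊕ V × Fin D × H) (j : Fin D) : wL L ((wire S T o).ν j a) j = wL L a j := by
  rcases a with x | ⟨x, i, h⟩
  · rfl
  · rw [wire_ν]
    by_cases h1 : j = i ∧ h = o
    · obtain ⟨rfl, rfl⟩ := h1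
      rw [wν_o]
      rfl
    · by_cases h2 : j = i ∧ h = T.ν i o
      · obtain ⟨rfl, rfl⟩ := h2
        rw [wν_o']
        exact hLs x j
      · rw [wν_gen S T o i j x h h1 h2]
        rfl

end

end Pool.Agent.J4.H72.LEC
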