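import Pool.Agent.J4.H72.LEC.Ball
import Pool.Agent.J4.H72.LEC.Wire

/-!
# Reduction of the list edge-colouring conjecture to sparse defects
-/

set_option autoImplicit false

namespace Pool.Agent.J4.H72.LEC

/-- There is a proper edge colouring of `G` from the lists `L`. -/
def ListColourable {V : Type} (G : SimpleGraph V) (L : G.edgeSet → Finset ℕ) : Prop :=
  ∃ f : G.edgeSet → ℕ, (∀ e, f e ∈ L e) ∧ ∀ e e', G.lineGraph.Adj e e' → f e ≠ f e'

/-- A choice of lists for a system of involutions which admits a colouring. -/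
def SysColourable {D : ℕ} {V : Type} (S : Sys D V) (L : V → Fin D → Finset ℕ) : Prop :=
  ∃ f : V → Fin D → ℕ, (∀ a j, f (S.ν j a) j = f a j) ∧ (∀ a, Function.Injective (f a)) ∧
    ∀ a j, f a j ∈ L a j

section Reg

variable {V : Type} {D : ℕ} {G : SimpleGraph V} (C : G.lineGraph.Coloring (Fin D))

/-- There is an edge of colour `i` at `v`. -/
def Has (v : V) (i : Fin D) : Prop := ∃ e : G.edgeSet, v ∈ (e : Sym2 V) ∧ C e = i

/-- The edge of colour `i` at `v`. -/
noncomputable def ed {v : V} {i : Fin D} (h : Has C v i) : G.edgeSet := Classical.choose h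

lemma ed_mem {v : V} {i : Fin D} (h : Has C v i) : v ∈ (ed C h : Sym2 V) :=
  (Classical.choose_spec h).1

lemma ed_col {v : V} {i : Fin D} (h : Has C v i) : C (ed C h) = i :=
  (Classical.choose_spec h).2

lemma col_inj {v : V} {e e' : G.edgeSet} (h : v ∈ (e : Sym2 V)) (h' : v ∈ (e' : Sym2 V))
    (hc : C e = C e') : e = e' := by
  by_contra hne
  exact C.valid (v := e) (w := e') ⟨hne, v, h, h'⟩ hc

lemma ed_eq {v : V} {i : Fin D} (h : Has C v i) {e : G.edgeSet} (he : v ∈ (e : Sym2 V))
    (hc : C e = i) : ed C h = e :=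
  col_inj C (ed_mem C h) he ((ed_col C h).trans hc.symm)

/-- The neighbour of `v` in colour `i`. -/
noncomputable def pt {v : V} {i : Fin D} (h : Has C v i) : V := Sym2.Mem.other (ed_mem C h)

lemma pt_spec {v : V} {i : Fin D} (h : Has C v i) : s(v, pt C h) = (ed C h : Sym2 V) :=
  Sym2.other_spec _

lemma pt_mem {v : V} {i : Fin D} (h : Has C v i) : pt C h ∈ (ed C h : Sym2 V) := by
  rw [← pt_spec]
  simp

lemma pt_adj {v : V} {i : Fin D} (h : Has C v i) : G.Adj v (pt C h) := by
  have := (ed C h).2
  rw [← pt_spec] at this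
  exact this

lemma pt_has {v : V} {i : Fin D} (h : Has C v i) : Has C (pt C h) i :=
  ⟨ed C h, pt_mem C h, ed_col C h⟩

lemma pt_ed {v : V} {i : Fin D} (h : Has C v i) (h' : Has C (pt C h) i) : ed C h' = ed C h :=
  ed_eq C h' (pt_mem C h) (ed_col C h)

lemma pt_pt {v : V} {i : Fin D} (h : Has C v i) (h' : Has C (pt C h) i) : pt C h' = v := by
  have h1 := pt_spec C h'
  rw [pt_ed C h h', ← pt_spec C h, Sym2.eq_iff] at h1
  rcases h1 with ⟨h2, -⟩ | ⟨-, h2⟩
  · exact absurd h2.symm (pt_adj C h).ne
  · exact h2

open Classical in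
/-- The involutions of the regular supergraph. -/
noncomputable def rν (i : Fin D) (a : V × (Fin D → Bool)) : V × (Fin D → Bool) :=
  if h : Has C a.1 i then (pt C h, a.2) else (a.1, Function.update a.2 i (!a.2 i))

lemma rν_pos {i : Fin D} {a : V × (Fin D → Bool)} (h : Has C a.1 i) :
    rν C i a = (pt C h, a.2) := by
  rw [rν, dif_pos h]

lemma rν_neg {i : Fin D} {a : V × (Fin D → Bool)} (h : ¬ Has C a.1 i) :
    rν C i a = (a.1, Function.update a.2 i (!a.2 i)) := by
  rw [rν, dif_neg h]

/-- The regular supergraph: `2 ^ D` copies of `G`, joined at the vertices of small degree. -/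
noncomputable def reg : Sys D (V × (Fin D → Bool)) where
  ν := rν C
  inv i a := by
    by_cases h : Has C a.1 i
    · rw [rν_pos C h]
      have h' : Has C ((pt C h, a.2) : V × (Fin D → Bool)).1 i := pt_has C h
      rw [rν_pos C h']
      ext1
      · exact pt_pt C h h'
      · rfl
    · rw [rν_neg C h]
      have h' : ¬ Has C ((a.1, Function.update a.2 i (!a.2 i)) : V × (Fin D → Bool)).1 i := h
      rw [rν_neg C h']
      ext1
      · rfl
      · simp
  ne_self i a he := by
    by_cases h : Has C a.1 i
    · rw [rν_pos C h] at he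
      exact (pt_adj C h).ne (congrArg Prod.fst he).symm
    · rw [rν_neg C h] at he
      have := congrFun (congrArg Prod.snd he) i
      simp at this
  ne i j a hij he := by
    by_cases h : Has C a.1 i
    · rw [rν_pos C h] at he
      by_cases h' : Has C a.1 j
      · rw [rν_pos C h'] at he
        have h1 : pt C h = pt C h' := congrArg Prod.fst he
        have h2 := pt_spec C h
        rw [h1, pt_spec C h'] at h2
        have h3 := ed_col C h
        have h4 := ed_col C h'
        rw [Subtype.ext h2] at h4
        exact hij (h3.symm.trans h4)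
      · rw [rν_neg C h'] at he
        exact (pt_adj C h).ne (congrArg Prod.fst he).symm
    · rw [rν_neg C h] at he
      by_cases h' : Has C a.1 j
      · rw [rν_pos C h'] at he
        exact (pt_adj C h').ne (congrArg Prod.fst he)
      · rw [rν_neg C h'] at he
        have := congrFun (congrArg Prod.snd he) i
        simp [Function.update_of_ne hij] at this

lemma reg_ν (i : Fin D) (a : V × (Fin D → Bool)) : (reg C).ν i a = rν C i a := rfl

open Classical in
/-- The lists of the regular supergraph. -/
noncomputable def rL (L : G.edgeSet → Finset ℕ) (a : V × (Fin D → Bool)) (i : Fin D) :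
    Finset ℕ :=
  if h : Has C a.1 i then L (ed C h) else Finset.range D

lemma rL_pos (L : G.edgeSet → Finset ℕ) {a : V × (Fin D → Bool)} {i : Fin D}
    (h : Has C a.1 i) : rL C L a i = L (ed C h) := by
  rw [rL, dif_pos h]

lemma rL_neg (L : G.edgeSet → Finset ℕ) {a : V × (Fin D → Bool)} {i : Fin D}
    (h : ¬ Has C a.1 i) : rL C L a i = Finset.range D := by
  rw [rL, dif_neg h]

lemma rL_sym (L : G.edgeSet → Finset ℕ) (a : V × (Fin D → Bool)) (i : Fin D) :
    rL C L ((reg C).ν i a) i = rL C L a i := by
  rw [reg_ν]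
  by_cases h : Has C a.1 i
  · rw [rν_pos C h]
    have h' : Has C ((pt C h, a.2) : V × (Fin D → Bool)).1 i := pt_has C h
    rw [rL_pos C L h', rL_pos C L h]
    congr 1
    exact pt_ed C h h'
  · rw [rν_neg C h]
    have h' : ¬ Has C ((a.1, Function.update a.2 i (!a.2 i)) : V × (Fin D → Bool)).1 i := h
    rw [rL_neg C L h', rL_neg C L h]

/-- A colouring of the regular supergraph gives a colouring of `G`. -/
lemma reg_colourable (L : G.edgeSet → Finset ℕ) (h : SysColourable (reg C) (rL C L)) :
    ListColourable G L := by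
  obtain ⟨f, hsym, hinj, hmem⟩ := h
  let b : Fin D → Bool := fun _ => true
  have key : ∀ (e : G.edgeSet) (v w : V), v ∈ (e : Sym2 V) → w ∈ (e : Sym2 V) →
      f (v, b) (C e) = f (w, b) (C e) := by
    intro e v w hv hw
    by_cases hvw : v = w
    · rw [hvw]
    · have hh : Has C v (C e) := ⟨e, hv, rfl⟩
      have h1 : ed C hh = e := ed_eq C hh hv rfl
      have h2 : pt C hh = w := by
        have h3 := pt_mem C hh
        have h4 := pt_spec C hh
        rw [h1] at h4
        rw [← h4, Sym2.mem_iff] at hw
        rcases hw with hw | hw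
        · exact absurd hw.symm hvw
        · exact hw.symm
      have h5 := hsym (v, b) (C e)
      rw [reg_ν, rν_pos C (a := (v, b)) hh, h2] at h5
      exact h5.symm
  have hex : ∀ e : G.edgeSet, ∃ v, v ∈ (e : Sym2 V) := by
    rintro ⟨e, he⟩
    induction e using Sym2.ind with
    | _ x y => exact ⟨x, by simp⟩
  choose p hp using hex
  refine ⟨fun e => f (p e, b) (C e), ?_, ?_⟩
  · intro e
    have h1 := hmem (p e, b) (C e)
    have hh : Has C (p e) (C e) := ⟨e, hp e, rfl⟩
    rw [rL_pos C L (a := (p e, b)) hh, ed_eq C hh (hp e) rfl] at h1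
    exact h1
  · rintro e e' hadj
    obtain ⟨hne, v, hv, hv'⟩ := hadj
    show f (p e, b) (C e) ≠ f (p e', b) (C e')
    rw [key e (p e) v (hp e) hv, key e' (p e') v (hp e') hv']
    intro h1
    exact hne (col_inj C hv hv' (hinj _ h1))

end Reg

/-- `EdgeChoosable D P`: every finite graph with a proper edge colouring with `D` colours has a
proper edge colouring from all lists of at least `D` colours of the palette `{0, …, P - 1}`. -/
def EdgeChoosable (D P : ℕ) : Prop :=
  ∀ (V : Type) [Fintype V] (G : SimpleGraph V), G.lineGraph.Colorable D →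
    ∀ L : G.edgeSet → Finset ℕ, (∀ e, D ≤ (L e).card) → (∀ e, L e ⊆ Finset.range P) →
      ListColourable G L

/-- `SparseDefects D g P`: the same for lists of size `D` on `D`-regular graphs with the following
very special structure. There is a set `S` of vertices at mutual distance greater than `g` such
that the graph without `S` is bipartite and at every vertex outside `S` all edges have the same
list; and the girth of the graph is greater than `g`. -/
def SparseDefects (D g P : ℕ) : Prop :=
  ∀ (V : Type) [Fintype V] (G : SimpleGraph V) (S : Set V) (L : G.edgeSet → Finset ℕ),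
    G.lineGraph.Colorable D →
    (∀ v, (G.neighborSet v).ncard = D) →
    (g : ℕ∞) < G.egirth →
    (∀ x ∈ S, ∀ y ∈ S, x ≠ y → ∀ p : G.Walk x y, g < p.length) →
    (∃ side : V → Bool, ∀ x ∉ S, ∀ y ∉ S, G.Adj x y → side x ≠ side y) →
    (∀ e, (L e).card = D) →
    (∀ e, L e ⊆ Finset.range P) →
    (∀ x ∉ S, ∀ e e' : G.edgeSet, x ∈ (e : Sym2 V) → x ∈ (e' : Sym2 V) → L e = L e') →
    ListColourable G L

/-- Colouring regular systems by means of the special ones. -/
lemma sys_colourable {D g P : ℕ} (hS : SparseDefects D g P) {V : Type} [Fintype V]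
    (S : Sys D V) (L : V → Fin D → Finset ℕ) (hL : ∀ a i, (L a i).card = D)
    (hP : ∀ a i, L a i ⊆ Finset.range P) (hLs : ∀ a i, L (S.ν i a) i = L a i) :
    SysColourable S L := by
  classical
  obtain ⟨H, hH, ⟨o⟩, T, χ, hT, hχ⟩ := exists_big D (g + 1) (Nat.succ_pos g)
  have hT' : NC T.ν g := fun w h1 h2 h3 => hT w h1 h2 (by omega)
  let W := wire S T o
  obtain ⟨F, hF⟩ := W.lift (wL L) (wL_sym S T o L hLs)
  obtain ⟨side, hside⟩ := wire_side S T o χ hχ (fun v => (Fintype.equivFin V v : ℕ))
    (fun a b h => (Fintype.equivFin V).injective (Fin.ext h))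
  have hout : ∀ a : V ⊕ V × Fin D × H, a ∉ Set.range (Sum.inl : V → V ⊕ V × Fin D × H) →
      ∃ q, a = Sum.inr q := by
    rintro (a | q) ha
    · exact absurd ⟨a, rfl⟩ ha
    · exact ⟨q, rfl⟩
  have hcard : ∀ (a : V ⊕ V × Fin D × H) (j : Fin D), (wL L a j).card = D := by
    rintro (x | ⟨x, i, h⟩) j
    · exact hL x j
    · exact hL x i
  have hpal : ∀ (a : V ⊕ V × Fin D × H) (j : Fin D), wL L a j ⊆ Finset.range P := by
    rintro (x | ⟨x, i, h⟩) j
    · exact hP x j
    · exact hP x i
  obtain ⟨f, hf1, hf2⟩ := hS (V ⊕ V × Fin D × H) W.graph (Set.range Sum.inl) F W.colorable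
    W.degree (W.girth (wire_NC S T o hT'))
    (by
      rintro _ ⟨x, rfl⟩ _ ⟨y, rfl⟩ hxy p
      exact wire_far S T o hT' x y (fun h => hxy (by rw [h])) p)
    ⟨side, by
      intro x hx y hy hadj
      obtain ⟨p, rfl⟩ := hout x hx
      obtain ⟨q, rfl⟩ := hout y hy
      exact hside p q hadj⟩
    (by
      intro e
      obtain ⟨a, i, rfl⟩ := W.exists_edge e
      rw [hF]
      exact hcard a i)
    (by
      intro e
      obtain ⟨a, i, rfl⟩ := W.exists_edge e
      rw [hF]
      exact hpal a i)
    (by
      intro x hx e e' he he'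
      obtain ⟨⟨y, k, h⟩, rfl⟩ := hout x hx
      obtain ⟨i, rfl⟩ := W.exists_edge_of_mem e he
      obtain ⟨j, rfl⟩ := W.exists_edge_of_mem e' he'
      rw [hF, hF]
      rfl)
  let f' : V ⊕ V × Fin D × H → Fin D → ℕ := fun a i => f (W.edge a i)
  have hsym : ∀ a j, f' (W.ν j a) j = f' a j := fun a j => by
    show f (W.edge (W.ν j a) j) = f (W.edge a j)
    rw [W.edge_ν]
  have hinj : ∀ a, Function.Injective (f' a) := by
    intro a i j hij
    by_contra hne
    exact hf2 _ _ (W.lineAdj (a := a) hne) hij
  have hmem : ∀ a j, f' a j ∈ wL L a j := by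
    intro a j
    rw [← hF]
    exact hf1 _
  refine ⟨fun x i => f' (Sum.inl x) i, ?_, ?_, ?_⟩
  · intro x i
    exact wire_eq S T o L hL f' hsym hinj hmem x i
  · intro x
    exact hinj (Sum.inl x)
  · intro x i
    exact hmem (Sum.inl x) i

/-- **The list edge-colouring conjecture is equivalent to its case of sparse defects**, for every
number of colours, every palette and every girth. -/
theorem choosable_iff (D g P : ℕ) (hDP : D ≤ P) : EdgeChoosable D P ↔ SparseDefects D g P := by
  constructor
  · intro h V _ G S L hG _ _ _ _ hL hP _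
    exact h V G hG L (fun e => (hL e).ge) hP
  · rintro hS V _ G ⟨C⟩ L hL hP
    classical
    choose L' hL' hc using fun e => Finset.exists_subset_card_eq (hL e)
    have hcol : ListColourable G L' := by
      apply reg_colourable C
      apply sys_colourable hS
      · intro a i
        by_cases h : Has C a.1 i
        · rw [rL_pos C L' h]
          exact hc _
        · rw [rL_neg C L' h]
          simp
      · intro a i
        by_cases h : Has C a.1 i
        · rw [rL_pos C L' h]
          exact (hL' _).trans (hP _)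
        · rw [rL_neg C L' h]
          intro x hx
          rw [Finset.mem_range] at hx ⊢
          omega
      · exact rL_sym C L'
    obtain ⟨f, h1, h2⟩ := hcol
    exact ⟨f, fun e => hL' e (h1 e), h2⟩

/-- The list edge-colouring conjecture, in the form of the frozen statement, is equivalent to its
case of sparse defects; the girth may be prescribed arbitrarily for every number of colours. -/
theorem conjecture_iff :
    (∀ (V : Type) [Fintype V] (G : SimpleGraph V) (k : ℕ), G.lineGraph.Colorable k ↔
      ∀ L : G.edgeSet → Finset ℕ, (∀ e, k ≤ (L e).card) →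
        ∃ f : G.edgeSet → ℕ, (∀ e, f e ∈ L e) ∧ ∀ e e', G.lineGraph.Adj e e' → f e ≠ f e') ↔
      ∀ D, ∃ g, ∀ P, SparseDefects D g P := by
  constructor
  · intro h D
    refine ⟨0, fun P V _ G S L hG _ _ _ _ hL _ _ => ?_⟩
    exact (h V G D).1 hG L (fun e => (hL e).ge)
  · intro h V _ G k
    constructor
    · intro hG L hL
      classical
      obtain ⟨g, hg⟩ := h k
      have : Fintype G.edgeSet := Fintype.ofFinite _
      obtain ⟨P, hP⟩ : ∃ P, ∀ e, L e ⊆ Finset.range P := by
        refine ⟨(Finset.univ.biUnion L).sup id + 1, fun e x hx => ?_⟩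
        rw [Finset.mem_range, Nat.lt_succ_iff]
        exact Finset.le_sup (f := id) (Finset.mem_biUnion.2 ⟨e, Finset.mem_univ _, hx⟩)
      have h1 := (choosable_iff k g (max P k) (le_max_right _ _)).2 (hg _)
      exact h1 V G hG L hL (fun e x hx => by
        have := hP e hx
        rw [Finset.mem_range] at this ⊢
        exact lt_of_lt_of_le this (le_max_left _ _))
    · intro hch
      obtain ⟨f, h1, h2⟩ := hch (fun _ => Finset.range k) (fun _ => by simp)
      refine ⟨SimpleGraph.Coloring.mk (fun e => ⟨f e, Finset.mem_range.1 (h1 e)⟩) ?_⟩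
      intro e e' hadj he
      exact h2 e e' hadj (congrArg Fin.val he)

end Pool.Agent.J4.H72.LEC
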